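import Mathlib
import Pool.Agent.H47.AT.Fin

set_option autoImplicit false

open Filter Topology

namespace Pool.Agent.Results.MP_050d88_nt.CountableExceptions

/-- `f` is multiplicative on the positive integers, with values in the closed unit disc (the value
`f 0` plays no role). -/
def IsMult (f : ℕ → ℂ) : Prop :=
  f 1 = 1 ∧ (∀ m n : ℕ, 0 < m → 0 < n → Nat.Coprime m n → f (m * n) = f m * f n) ∧
    ∀ n : ℕ, 0 < n → ‖f n‖ ≤ 1

/-- `a` is additive on the positive integers. -/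
def IsAdditive (a : ℕ → ℝ) : Prop :=
  ∀ m n : ℕ, 0 < m → 0 < n → Nat.Coprime m n → a (m * n) = a m + a n

/-- The average over `1 ≤ n ≤ x` of `F_0 (n + h_0) ⋯ F_k (n + h_k)`. -/
noncomputable def avg {k : ℕ} (F : Fin (k + 1) → ℕ → ℂ) (h : Fin (k + 1) → ℕ) (x : ℕ) : ℂ :=
  (1 / (x : ℂ)) * ∑ n ∈ Finset.Icc 1 x, ∏ i, F i (n + h i)

/-- At the scale `x` the average is at most `ε` for `F_0 = f₁` and ALL multiplicative `F_1, …, F_k`. -/
def GoodAt {k : ℕ} (h : Fin (k + 1) → ℕ) (ε : ℝ) (f₁ : ℕ → ℂ) (x : ℕ) : Prop :=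
  ∀ F : Fin (k + 1) → ℕ → ℂ, F 0 = f₁ → (∀ i, i ≠ 0 → IsMult (F i)) → ‖avg F h x‖ ≤ ε

/-- The upper logarithmic density of `X`. -/
noncomputable def upperLogDensity (X : Set ℕ) : ℝ :=
  Filter.limsup (fun x : ℕ => (∑ n ∈ Finset.Icc 1 x, X.indicator (fun n => 1 / (n : ℝ)) n)
    / Real.log x) atTop

/-- An averaging: nonnegative weights `w j` on the finite sets `s j`, of total mass tending to `1`, with
mass tending to `0` on every `[0, N]`. -/
def IsAveraging (s : ℕ → Finset ℕ) (w : ℕ → ℕ → ℝ) : Prop :=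
  (∀ j n, 0 ≤ w j n) ∧ Tendsto (fun j => ∑ n ∈ s j, w j n) atTop (𝓝 1) ∧
    ∀ N : ℕ, Tendsto (fun j => ∑ n ∈ (s j).filter (fun n => n ≤ N), w j n) atTop (𝓝 0)

/-- The upper density of `X` with respect to an averaging. -/
noncomputable def upperDensity (s : ℕ → Finset ℕ) (w : ℕ → ℕ → ℝ) (X : Set ℕ) : ℝ :=
  Filter.limsup (fun j : ℕ => ∑ n ∈ s j, X.indicator (w j) n) atTop

/-- The conclusion of Q1 for `f₁` along the set `X` of scales, uniformly in all the other functions: for all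
natural shifts with `h i ≠ h 0` for `i ≠ 0` and every `ε > 0`, all large scales of `X` are good. -/
def HoldsAlong (X : Set ℕ) (f₁ : ℕ → ℂ) : Prop :=
  ∀ (k : ℕ) (h : Fin (k + 1) → ℕ), (∀ i, i ≠ 0 → h i ≠ h 0) → ∀ ε : ℝ, 0 < ε →
    ∃ x₀ : ℕ, ∀ x ∈ X, x₀ ≤ x → GoodAt h ε f₁ x

/-- Q1 holds for `f₁`: its conclusion holds along one set of upper logarithmic density `1`, which has also upper
density `1` with respect to all the given averagings. -/
def Holds (s : ℕ → ℕ → Finset ℕ) (w : ℕ → ℕ → ℕ → ℝ) (f₁ : ℕ → ℂ) : Prop :=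
  ∃ X : Set ℕ, upperLogDensity X = 1 ∧ (∀ i, upperDensity (s i) (w i) X = 1) ∧ HoldsAlong X f₁

/-- The function `d(n) e^{iθ a(n)}`. -/
noncomputable def twist (d : ℕ → ℂ) (a : ℕ → ℝ) (θ : ℝ) : ℕ → ℂ :=
  fun n => d n * Complex.exp (((θ * a n : ℝ) : ℂ) * Complex.I)

/-- (1) For every bounded `d` Q1 holds for `d(n) z^Ω(n)` for all but countably many `z` on the unit circle.
(2) The same for `d(n) e^{iθ a(n)}` and all but countably many real `θ`, `a` additive, bounded at the primes, with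
`∑ a(p)²/p = ∞`.  (3) For given shifts, `ε`, `η` and `R` all but `K` of the `θ` in `[-R, R]` have good scales of
upper density at least `1 - η`; `K` depends neither on `d` nor on the averaging. -/
theorem result :
    (∀ (s : ℕ → ℕ → Finset ℕ) (w : ℕ → ℕ → ℕ → ℝ), (∀ i, IsAveraging (s i) (w i)) →
      ∀ d : ℕ → ℂ, (∀ n, 0 < n → ‖d n‖ ≤ 1) →
        {z : ℂ | ‖z‖ = 1 ∧
          ¬ Holds s w (fun n => d n * z ^ ArithmeticFunction.cardFactors n)}.Countable) ∧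
    ∀ (a : ℕ → ℝ) (C : ℝ), IsAdditive a → (∀ p : ℕ, p.Prime → |a p| ≤ C) →
      ¬ Summable (fun p : ℕ => if p.Prime then a p ^ 2 / (p : ℝ) else 0) →
      (∀ (s : ℕ → ℕ → Finset ℕ) (w : ℕ → ℕ → ℕ → ℝ), (∀ i, IsAveraging (s i) (w i)) →
        ∀ d : ℕ → ℂ, (∀ n, 0 < n → ‖d n‖ ≤ 1) →
          {θ : ℝ | ¬ Holds s w (twist d a θ)}.Countable) ∧
      ∀ (k : ℕ) (h : Fin (k + 1) → ℕ), (∀ i, i ≠ 0 → h i ≠ h 0) → ∀ ε η R : ℝ, 0 < ε → 0 < η →
        ∃ K : ℕ, ∀ (s : ℕ → Finset ℕ) (w : ℕ → ℕ → ℝ), IsAveraging s w →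
          ∀ d : ℕ → ℂ, (∀ n, 0 < n → ‖d n‖ ≤ 1) → ∀ T : Finset ℝ,
          (∀ θ ∈ T, |θ| ≤ R ∧ upperDensity s w {x | GoodAt h ε (twist d a θ) x} < 1 - η) →
          T.card ≤ K :=
  ⟨fun s w hsw d hd => Pool.H47.AT.part3 s w hsw d hd, fun _ _ ha hC hdiv =>
    ⟨fun s w hsw d hd => Pool.H47.AT.part2 ha hC hdiv s w hsw d hd,
      fun k h hne _ _ R hε hη => Pool.H47.AT.part1 ha hC hdiv k h hne hε hη R⟩⟩

end Pool.Agent.Results.MP_050d88_nt.CountableExceptions
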