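import Mathlib
import Pool.Agent.H2.EL.E050

set_option autoImplicit false

open Filter Topology MeasureTheory ProbabilityTheory

namespace Pool.Agent.Results.MP_050d88_nt.RandomFactorAllScales

/-- `f` is multiplicative on the positive integers, with values in the closed unit disc (the value
`f 0` plays no role). -/
def IsMult (f : ℕ → ℂ) : Prop :=
  f 1 = 1 ∧ (∀ m n : ℕ, 0 < m → 0 < n → Nat.Coprime m n → f (m * n) = f m * f n) ∧
    ∀ n : ℕ, 0 < n → ‖f n‖ ≤ 1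

/-- The average over `1 ≤ n ≤ x` of `F_0 (n + h_0) ⋯ F_k (n + h_k)`. -/
noncomputable def avg {k : ℕ} (F : Fin (k + 1) → ℕ → ℂ) (h : Fin (k + 1) → ℕ) (x : ℕ) : ℂ :=
  (1 / (x : ℂ)) * ∑ n ∈ Finset.Icc 1 x, ∏ i, F i (n + h i)

/-- Q1 holds for `f₁` with all of `ℕ` as the set of scales, uniformly in all the other functions: for
all natural shifts with `h i ≠ h 0` for `i ≠ 0` and every `ε > 0` there is `x₀` such that for `x ≥ x₀` the
average is at most `ε` for ALL multiplicative `F_1, …, F_k`. -/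
def HoldsAtAllScales (f₁ : ℕ → ℂ) : Prop :=
  ∀ (k : ℕ) (h : Fin (k + 1) → ℕ), (∀ i, i ≠ 0 → h i ≠ h 0) → ∀ ε : ℝ, 0 < ε →
    ∃ x₀ : ℕ, ∀ x : ℕ, x₀ ≤ x → ∀ F : Fin (k + 1) → ℕ → ℂ, F 0 = f₁ → (∀ i, IsMult (F i)) →
      ‖avg F h x‖ ≤ ε

open Classical in
/-- `P` is thick: the sum of `1/p` over the primes `p ∈ P` with `log N < p ≤ N` tends to infinity
as `N → ∞`. -/
def Thick (P : Set ℕ) : Prop :=
  Tendsto (fun N : ℕ => ∑ p ∈ (Finset.Icc 1 N).filter
    (fun p => p.Prime ∧ p ∈ P ∧ Real.log N < p), (1 : ℝ) / p) atTop atTop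

/-- Q1 holds with `𝒳 = ℕ` for almost every random multiplicative function with independent values at
different primes and mean zero at the primes of a thick set. -/
theorem result {Ω : Type} [MeasurableSpace Ω] (μ : Measure Ω) [IsProbabilityMeasure μ]
    (f : Ω → ArithmeticFunction ℂ) (hmul : ∀ ω, (f ω).IsMultiplicative)
    (hbd : ∀ ω n, ‖f ω n‖ ≤ 1) (hmeas : ∀ n, Measurable (fun ω => f ω n))
    (hind : iIndepFun (fun (p : Nat.Primes) (ω : Ω) (m : ℕ) => f ω ((p : ℕ) ^ m)) μ)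
    (P : Set ℕ) (hP : Thick P) (hmean : ∀ p ∈ P, p.Prime → ∫ ω, f ω p ∂μ = 0) :
    ∀ᵐ ω ∂μ, HoldsAtAllScales (fun n => f ω n) :=
  Pool.H2.EL.rand050 μ f hmul hbd hmeas hind P hP hmean

end Pool.Agent.Results.MP_050d88_nt.RandomFactorAllScales
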