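import Mathlib
import Pool.Agent.H1.TF.Fin

set_option autoImplicit false

open Filter Topology

namespace Pool.Agent.Results.MP_050d88_nt.TypicalFunction

/-- `f` is multiplicative on the positive integers, with values in the closed unit disc (the value
`f 0` plays no role). -/
def IsMult (f : ℕ → ℂ) : Prop :=
  f 1 = 1 ∧ (∀ m n : ℕ, 0 < m → 0 < n → Nat.Coprime m n → f (m * n) = f m * f n) ∧
    ∀ n : ℕ, 0 < n → ‖f n‖ ≤ 1

/-- The average over `1 ≤ n ≤ x` of `F_0 (n + h_0) ⋯ F_k (n + h_k)`. -/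
noncomputable def avg {k : ℕ} (F : Fin (k + 1) → ℕ → ℂ) (h : Fin (k + 1) → ℕ) (x : ℕ) : ℂ :=
  (1 / (x : ℂ)) * ∑ n ∈ Finset.Icc 1 x, ∏ i, F i (n + h i)

/-- The value at `p` of a map `φ` from the primes to the unit circle. -/
noncomputable def val (φ : Nat.Primes → Circle) (p : ℕ) : ℂ :=
  if hp : p.Prime then (φ ⟨p, hp⟩ : ℂ) else 1

/-- The completely multiplicative function with the values `φ p` at the primes: the product of
`φ p ^ k` over the prime powers `p ^ k` which exactly divide `n`. -/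
noncomputable def fn (φ : Nat.Primes → Circle) (n : ℕ) : ℂ :=
  n.factorization.prod fun p k => val φ p ^ k

/-- The squared distance of `f` and `g` up to `x`. -/
noncomputable def distSq (f g : ℕ → ℂ) (x : ℕ) : ℝ :=
  ∑ p ∈ (x + 1).primesBelow, (1 - (f p * (starRingEnd ℂ) (g p)).re) / p

/-- `f` is non-pretentious. -/
def NonPretentious (f : ℕ → ℂ) : Prop :=
  ∀ (q : ℕ) [NeZero q] (χ : DirichletCharacter ℂ q) (t : ℝ),
    Tendsto (distSq f (fun n => χ n * (n : ℂ) ^ ((t : ℂ) * Complex.I))) atTop atTop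

/-- The upper logarithmic density of `X`. -/
noncomputable def upperLogDensity (X : Set ℕ) : ℝ :=
  Filter.limsup (fun x : ℕ => (∑ n ∈ Finset.Icc 1 x, X.indicator (fun n => 1 / (n : ℝ)) n)
    / Real.log x) atTop

/-- The lower logarithmic density of `X`. -/
noncomputable def lowerLogDensity (X : Set ℕ) : ℝ :=
  Filter.liminf (fun x : ℕ => (∑ n ∈ Finset.Icc 1 x, X.indicator (fun n => 1 / (n : ℝ)) n)
    / Real.log x) atTop

/-- The conclusion of Q1 for `f₁` along the set `Y` of scales, uniformly in all the other functions: for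
all natural shifts with `h i ≠ h 0` for `i ≠ 0` and every `ε > 0` there is `x₀` such that for `x ∈ Y`,
`x ≥ x₀`, the average is at most `ε` for ALL multiplicative `F_1, …, F_k`. -/
def HoldsAlong (Y : Set ℕ) (f₁ : ℕ → ℂ) : Prop :=
  ∀ (k : ℕ) (h : Fin (k + 1) → ℕ), (∀ i, i ≠ 0 → h i ≠ h 0) → ∀ ε : ℝ, 0 < ε →
    ∃ x₀ : ℕ, ∀ x ∈ Y, x₀ ≤ x → ∀ F : Fin (k + 1) → ℕ → ℂ, F 0 = f₁ → (∀ i, IsMult (F i)) →
      ‖avg F h x‖ ≤ ε

/-- The average over `1 ≤ n ≤ x` of `f (n + h₁)` times the conjugate of `f (n + h₂)`. -/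
noncomputable def corr (f : ℕ → ℂ) (h₁ h₂ x : ℕ) : ℂ :=
  (∑ n ∈ Finset.Icc 1 x, f (n + h₁) * (starRingEnd ℂ) (f (n + h₂))) / (x : ℂ)

/-- Typical completely multiplicative functions with values in a closed subset `S` of the unit circle. -/
theorem result (Φ : ℕ → ℕ) (X : ℕ → Set ℕ) (hX : ∀ i, (X i).Infinite) (γ : ℕ → Nat.Primes → Circle)
    (S : Set Circle) (hS : IsClosed S) (h1 : (1 : Circle) ∈ S) (h2 : S ≠ {1}) :
    ∃ G : Set (Nat.Primes → S), IsGδ G ∧ Dense G ∧ ∀ ψ ∈ G,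
      NonPretentious (fn fun p => ψ p) ∧
      (∃ Y : Set ℕ, upperLogDensity Y = 1 ∧ HoldsAlong Y (fn fun p => ψ p) ∧
        ∀ i N : ℕ, ∃ y ∈ X i, N ≤ y ∧ Set.Icc y (Φ y) ⊆ Y) ∧
      (S = Set.univ →
        (∀ i m H : ℕ, ∀ ε : ℝ, 0 < ε → ∃ y ∈ X i, H ≤ y ∧ ∃ t : ℝ, (H : ℝ) ≤ t ∧ t ≤ Real.log y ∧
          ∀ x : ℕ, y ≤ x → x ≤ Φ y →
            ∑ n ∈ Finset.Icc 1 x, ‖fn (fun p => ψ p) n - fn (γ m) n * (n : ℂ) ^ ((t : ℂ) * Complex.I)‖
              ≤ ε * x) ∧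
        (∀ (Z : Set ℕ) (h₁ h₂ : ℕ), Tendsto (corr (fn fun p => ψ p) h₁ h₂) (atTop ⊓ 𝓟 Z) (𝓝 0) →
          lowerLogDensity Z = 0 ∧ ∀ i N : ℕ, ∃ y ∈ X i, N ≤ y ∧ Disjoint (Set.Icc y (Φ y)) Z)) :=
  Pool.Agent.H1.TF.typical Φ X hX γ S hS h1 h2

end Pool.Agent.Results.MP_050d88_nt.TypicalFunction
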