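import Mathlib
import Pool.Agent.H2.EL.W050

set_option autoImplicit false

open Filter Topology

namespace Pool.Agent.Results.MP_050d88_nt.WindowPretentious

/-- `f` is multiplicative on the positive integers, with values in the closed unit disc (the value
`f 0` plays no role). -/
def IsMult (f : ℕ → ℂ) : Prop :=
  f 1 = 1 ∧ (∀ m n : ℕ, 0 < m → 0 < n → Nat.Coprime m n → f (m * n) = f m * f n) ∧
    ∀ n : ℕ, 0 < n → ‖f n‖ ≤ 1

/-- The average over `1 ≤ n ≤ x` of `F_0 (n + h_0) ⋯ F_k (n + h_k)`. -/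
noncomputable def avg {k : ℕ} (F : Fin (k + 1) → ℕ → ℂ) (h : Fin (k + 1) → ℕ) (x : ℕ) : ℂ :=
  (1 / (x : ℂ)) * ∑ n ∈ Finset.Icc 1 x, ∏ i, F i (n + h i)

/-- The squared pretentious distance between `g` and `n ↦ χ(n) n^{it}` up to `x`. -/
noncomputable def distSq (g : ℕ → ℂ) {q : ℕ} (χ : DirichletCharacter ℂ q) (t : ℝ) (x : ℕ) : ℝ :=
  ∑ p ∈ Finset.filter Nat.Prime (Finset.Iic x),
    (1 - (g p * starRingEnd ℂ (χ (p : ZMod q) * (p : ℂ) ^ (Complex.I * (t : ℂ)))).re) / (p : ℝ)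

/-- `f` is pretentious on long windows of primes: for every `K` there are arbitrarily large `x` such that on
the primes of `(x, x^K]` the function `f` is as close as desired to some `χ(n) n^{it}` with `χ` of bounded
modulus and `|t| ≤ x` (depending on the window), while the distance up to `x` is as large as desired. -/
def PretentiousOnLongWindows (f : ℕ → ℂ) : Prop :=
  ∃ Q : ℕ, ∀ (K x₀ : ℕ) (M η : ℝ), 0 < η → ∃ x : ℕ, x₀ ≤ x ∧
    ∃ (q : ℕ) (χ : DirichletCharacter ℂ q) (t : ℝ), 0 < q ∧ q ≤ Q ∧ |t| ≤ x ∧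
      distSq f χ t (x ^ K) - distSq f χ t x ≤ η ∧ M ≤ distSq f χ t x

/-- The upper logarithmic density of `X`. -/
noncomputable def upperLogDensity (X : Set ℕ) : ℝ :=
  Filter.limsup (fun x : ℕ => (∑ n ∈ Finset.Icc 1 x, X.indicator (fun n => 1 / (n : ℝ)) n)
    / Real.log x) atTop

/-- The conclusion of Q1 for `f₁` along the set `X` of scales, uniformly in all the other functions: for
all natural shifts with `h i ≠ h 0` for `i ≠ 0` and every `ε > 0` there is `x₀` such that for `x ∈ X`,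
`x ≥ x₀`, the average is at most `ε` for ALL multiplicative `F_1, …, F_k`. -/
def HoldsAlong (X : Set ℕ) (f₁ : ℕ → ℂ) : Prop :=
  ∀ (k : ℕ) (h : Fin (k + 1) → ℕ), (∀ i, i ≠ 0 → h i ≠ h 0) → ∀ ε : ℝ, 0 < ε →
    ∃ x₀ : ℕ, ∀ x ∈ X, x₀ ≤ x → ∀ F : Fin (k + 1) → ℕ → ℂ, F 0 = f₁ → (∀ i, IsMult (F i)) →
      ‖avg F h x‖ ≤ ε

/-- Q1 holds for every `f₁` which is pretentious on long windows of primes (and arbitrary outside these
windows). -/
theorem result (f₁ : ℕ → ℂ) (hf : IsMult f₁) (hw : PretentiousOnLongWindows f₁) :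
    ∃ X : Set ℕ, upperLogDensity X = 1 ∧ HoldsAlong X f₁ :=
  Pool.H2.EL.winP_all f₁ hf hw

end Pool.Agent.Results.MP_050d88_nt.WindowPretentious
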